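import Pool.Agent.W700.PS.Defs

/-!
T1 of project PS: Baire category.
-/

set_option autoImplicit false

namespace W37.PS
open W700.PS Set

section
variable {E : Type} [NormedAddCommGroup E] [NormedSpace ℂ E]

/-- sums of `m` products of elements of `A` of norm at most `m` -/
def P (A : Submodule ℂ (E →L[ℂ] E)) (m : ℕ) : Set A :=
  {u | ∃ a b : Fin m → (E →L[ℂ] E),
    (∀ i, a i ∈ A ∧ b i ∈ A ∧ ‖a i‖ ≤ m ∧ ‖b i‖ ≤ m) ∧ (u : E →L[ℂ] E) = ∑ i, (a i).comp (b i)}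

lemma span_form (A : Submodule ℂ (E →L[ℂ] E)) (u : E →L[ℂ] E)
    (hu : u ∈ Submodule.span ℂ {w | ∃ a ∈ A, ∃ b ∈ A, w = a.comp b}) :
    ∃ (n : ℕ) (a b : Fin n → (E →L[ℂ] E)), (∀ i, a i ∈ A ∧ b i ∈ A) ∧
      u = ∑ i, (a i).comp (b i) := by
  induction hu using Submodule.span_induction with
  | mem x hx =>
    obtain ⟨a, ha, b, hb, rfl⟩ := hx
    exact ⟨1, fun _ => a, fun _ => b, fun _ => ⟨ha, hb⟩, by simp⟩
  | zero => exact ⟨0, fun _ => 0, fun _ => 0, fun i => i.elim0, by simp⟩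
  | add x y _ _ hx hy =>
    obtain ⟨n, a, b, h, rfl⟩ := hx
    obtain ⟨n', a', b', h', rfl⟩ := hy
    refine ⟨n + n', Fin.append a a', Fin.append b b', ?_, ?_⟩
    · intro i
      refine Fin.addCases (fun i => ?_) (fun i => ?_) i
      · simpa using h i
      · simpa using h' i
    · simp [Fin.sum_univ_add]
  | smul c x _ hx =>
    obtain ⟨n, a, b, h, rfl⟩ := hx
    refine ⟨n, fun i => c • a i, b, fun i => ⟨A.smul_mem c (h i).1, (h i).2⟩, ?_⟩
    rw [Finset.smul_sum]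
    refine Finset.sum_congr rfl fun i _ => ?_
    ext x
    simp

lemma mem_P (A : Submodule ℂ (E →L[ℂ] E)) (u : A)
    (hu : (u : E →L[ℂ] E) ∈ Submodule.span ℂ {w | ∃ a ∈ A, ∃ b ∈ A, w = a.comp b}) :
    ∃ k : ℕ, u ∈ P A (k + 1) := by
  obtain ⟨n, a, b, h, hu⟩ := span_form A _ hu
  obtain ⟨K, hK⟩ := exists_nat_ge (∑ i, (‖a i‖ + ‖b i‖))
  have hle : ∀ i, ‖a i‖ + ‖b i‖ ≤ K := fun i =>
    (Finset.single_le_sum (f := fun i => ‖a i‖ + ‖b i‖) (fun i _ => by positivity)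
      (Finset.mem_univ i)).trans hK
  refine ⟨n + K, ?_⟩
  refine ⟨Fin.append (m := n) (n := K + 1) a (fun _ => 0),
    Fin.append (m := n) (n := K + 1) b (fun _ => 0), ?_, ?_⟩
  · intro i
    refine Fin.addCases (m := n) (n := K + 1) (fun i => ?_) (fun i => ?_) i
    · simp only [Fin.append_left]
      refine ⟨(h i).1, (h i).2, ?_, ?_⟩
      · push_cast
        have := hle i
        have := norm_nonneg (b i)
        have : (0 : ℝ) ≤ n := Nat.cast_nonneg n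
        linarith
      · push_cast
        have := hle i
        have := norm_nonneg (a i)
        have : (0 : ℝ) ≤ n := Nat.cast_nonneg n
        linarith
    · simp only [Fin.append_right]
      refine ⟨A.zero_mem, A.zero_mem, ?_, ?_⟩ <;> · simp; positivity
  · rw [hu]
    have := Fin.sum_univ_add (a := n) (b := K + 1) (fun i => (Fin.append (m := n) (n := K + 1) a (fun _ => 0) i).comp
      (Fin.append (m := n) (n := K + 1) b (fun _ => 0) i))
    refine Eq.trans ?_ this.symm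
    simp

end

theorem main : S_T1 := by
  intro E _ _ _ A hA hspan
  haveI : CompleteSpace A := hA.completeSpace_coe
  obtain ⟨k, u0, hu0⟩ : ∃ k, (interior (closure (P A (k + 1)))).Nonempty := by
    apply nonempty_interior_of_iUnion_of_closed
    · intro i; exact isClosed_closure
    · rw [eq_univ_iff_forall]
      intro u
      obtain ⟨k, hk⟩ := mem_P A u (hspan u u.2)
      exact mem_iUnion.2 ⟨k, subset_closure hk⟩
  obtain ⟨r, hr, hball⟩ := Metric.mem_nhds_iff.1 (mem_interior_iff_mem_nhds.1 hu0)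
  set m := k + 1 with hm
  set ρ : ℝ := r / 2 with hρ
  have hρ0 : 0 < ρ := by positivity
  refine ⟨m + m, m * max 1 ρ⁻¹, by omega, by positivity, ?_⟩
  intro u hu hu1 ε hε
  have h1 : u0 + (ρ : ℂ) • (⟨u, hu⟩ : A) ∈ closure (P A m) := by
    apply hball
    rw [Metric.mem_ball, dist_eq_norm, add_sub_cancel_left]
    change ‖(ρ : ℂ) • u‖ < r
    rw [norm_smul, Complex.norm_real, Real.norm_of_nonneg hρ0.le]
    nlinarith
  have h0 : u0 ∈ closure (P A m) := hball (Metric.mem_ball_self hr)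
  obtain ⟨p, hp, hpd⟩ := Metric.mem_closure_iff.1 h1 (ρ * ε / 2) (by positivity)
  obtain ⟨q, hq, hqd⟩ := Metric.mem_closure_iff.1 h0 (ρ * ε / 2) (by positivity)
  obtain ⟨a, b, hab, hpe⟩ := hp
  obtain ⟨a', b', hab', hqe⟩ := hq
  have hkey : ‖(ρ : ℂ) • u - ((p : E →L[ℂ] E) - q)‖ ≤ ρ * ε := by
    have h2 : dist (u0 + (ρ : ℂ) • (⟨u, hu⟩ : A)) p
      = ‖((u0 : E →L[ℂ] E) + (ρ : ℂ) • u) - p‖ := by
      rw [dist_eq_norm]; rfl
    have h3 : dist u0 q = ‖(u0 : E →L[ℂ] E) - q‖ := by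
      rw [dist_eq_norm]; rfl
    rw [h2] at hpd
    rw [h3] at hqd
    have h5 : (ρ : ℂ) • u - ((p : E →L[ℂ] E) - q)
      = (((u0 : E →L[ℂ] E) + (ρ : ℂ) • u) - p) - ((u0 : E →L[ℂ] E) - q) := by abel
    rw [h5]
    have h6 := norm_sub_le (((u0 : E →L[ℂ] E) + (ρ : ℂ) • u) - p) ((u0 : E →L[ℂ] E) - q)
    have h7 : (0 : ℝ) < ρ * ε := by positivity
    refine h6.trans ?_
    linarith
  have hρC : (ρ : ℂ) ≠ 0 := by exact_mod_cast hρ0.ne'
  refine ⟨Fin.append (fun i => (ρ : ℂ)⁻¹ • a i) (fun i => -((ρ : ℂ)⁻¹ • a' i)),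
    Fin.append b b', ?_, ?_⟩
  · have hnorm : ‖(ρ : ℂ)⁻¹‖ = ρ⁻¹ := by
      rw [norm_inv, Complex.norm_real, Real.norm_of_nonneg hρ0.le]
    have hmax1 : (1 : ℝ) ≤ max 1 ρ⁻¹ := le_max_left _ _
    have hmax2 : ρ⁻¹ ≤ max 1 ρ⁻¹ := le_max_right _ _
    have hm0 : (0 : ℝ) ≤ (m : ℝ) := Nat.cast_nonneg _
    have hA1 : ∀ t : ℝ, 0 ≤ t → t ≤ m → ρ⁻¹ * t ≤ m * max 1 ρ⁻¹ := by
      intro t ht0 ht
      calc ρ⁻¹ * t ≤ max 1 ρ⁻¹ * m := mul_le_mul hmax2 ht ht0 (by positivity)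
        _ = _ := mul_comm _ _
    have hA2 : ∀ t : ℝ, t ≤ m → t ≤ m * max 1 ρ⁻¹ := by
      intro t ht
      nlinarith
    intro i
    refine Fin.addCases (fun i => ?_) (fun i => ?_) i
    · simp only [Fin.append_left]
      refine ⟨A.smul_mem _ (hab i).1, (hab i).2.1, ?_, hA2 _ (hab i).2.2.2⟩
      rw [norm_smul, hnorm]
      exact hA1 _ (norm_nonneg _) (hab i).2.2.1
    · simp only [Fin.append_right]
      refine ⟨A.neg_mem (A.smul_mem _ (hab' i).1), (hab' i).2.1, ?_, hA2 _ (hab' i).2.2.2⟩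
      rw [norm_neg, norm_smul, hnorm]
      exact hA1 _ (norm_nonneg _) (hab' i).2.2.1
  · have hsum : (∑ i, (Fin.append (fun i => (ρ : ℂ)⁻¹ • a i) (fun i => -((ρ : ℂ)⁻¹ • a' i)) i).comp
        (Fin.append b b' i)) = (ρ : ℂ)⁻¹ • ((p : E →L[ℂ] E) - q) := by
      rw [Fin.sum_univ_add, hpe, hqe]
      ext x
      simp only [Fin.append_left, Fin.append_right, add_apply,
        sum_apply, ContinuousLinearMap.comp_apply,
        smul_apply, neg_apply,
        sub_apply, smul_sub, Finset.smul_sum, Finset.sum_neg_distrib]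
      abel
    rw [hsum]
    have h4 : u - (ρ : ℂ)⁻¹ • ((p : E →L[ℂ] E) - q)
      = (ρ : ℂ)⁻¹ • ((ρ : ℂ) • u - ((p : E →L[ℂ] E) - q)) := by
      rw [smul_sub (ρ : ℂ)⁻¹ ((ρ : ℂ) • u), smul_smul, inv_mul_cancel₀ hρC, one_smul]
    rw [h4, norm_smul, norm_inv, Complex.norm_real, Real.norm_of_nonneg hρ0.le]
    calc ρ⁻¹ * ‖(ρ : ℂ) • u - ((p : E →L[ℂ] E) - q)‖ ≤ ρ⁻¹ * (ρ * ε) :=
          mul_le_mul_of_nonneg_left hkey (by positivity)
      _ = ε := by rw [← mul_assoc, inv_mul_cancel₀ hρ0.ne', one_mul]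

end W37.PS
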